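import Pool.Agent.K4H39.AJ.Mot

/-!
# The p-adic Abel-Jacobi map: odd cohomology controls the algebraically trivial cycles

Let `k` be a number field, `C` the Chow groups with rational coefficients of the smooth projective
geometrically irreducible varieties over `k` (in the form of their formal properties), `H` the étale
cohomology with coefficients the `p`-adic numbers, and `A` the `p`-adic Abel-Jacobi maps
`CH^i(X)^0 → H^1(k, H^(2i-1)(X)(i))`, which Beilinson and Bloch conjecture to be injective.

**Theorem.** The following are equivalent:
1. the `p`-adic Abel-Jacobi map is injective on the algebraically trivial cycles on all varieties;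
2. homologically trivial correspondences act as zero on algebraically trivial cycles: the functors
   given by the algebraically trivial cycles factor through homological motives;
3. the algebraically trivial cycles in `CH^i(X)` are controlled by the single cohomology group
   `H^(2i-1)(X)`: every correspondence which acts as zero on `H^(2i-1)(X)` acts as zero on them.

If these statements are true then also
4. kernels are cohomological: if `Γ` is a correspondence from `X` to `Y` and the self-correspondence
   `e` of `X` is the identity on the kernel of `Γ` in `H^(2i-1)(X)`, then it is the identity on the
   kernel of `Γ` in the algebraically trivial part of `CH^i(X)`;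
5. if `Γ` is injective on `H^(2i-1)(X)` then it is injective on the algebraically trivial part of
   `CH^i(X)`;
6. for the Chow motives `M = (X, e, n)` with `V_p^(2n-1)(M) = 0` the algebraically trivial part of
   `CH(M)` is zero.

The statements 2 - 6 do not mention Galois cohomology, and they do not depend on `p` as homological
equivalence does not. No standard conjecture and no finite-dimensionality is assumed. The main part
is that the kernel of the Abel-Jacobi map on algebraically trivial cycles consists of the classes
`Γ_* c`, `c` a zero-cycle of degree zero on a curve and `Γ` homologically trivial; it is proved with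
the complete reducibility of Jacobians and the purity of the Galois representations.
-/

set_option autoImplicit false

open CategoryTheory AlgebraicGeometry

universe u v w

namespace Pool.Agent.Results.MP_386e47_ag.CohomologyControlsCycles

open Pool.Agent.H914 Pool.Agent.H914.VarClass Pool.Agent.H914.VarClass.Obj Pool.Agent.W492.BB
  Pool.Agent.W550.Corr Pool.Agent.TH133 Pool.Agent.K4H39.AJ

/-- **The odd cohomology controls the algebraically trivial cycles.** -/
theorem result {k : Type u} [Field k] {𝒱 : VarClass k} (C : TheoryData.{u, v, 0} 𝒱 ℚ)
    [IsChowProj C] {K : Type w} [Field K] (H : WeilTheoryData.{u, v, w} C K) [IsWeilProj H]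
    (hP : CurveProperties H) (A : AJData H) (hA : A.IsAJ) :
    -- the equivalences
    List.TFAE [InjectiveOnAllAlgTrivial A, HomTrivialActsAsZero H,
      ZeroOnOddCohomologyActsAsZero H] ∧
    -- the consequences
    (InjectiveOnAllAlgTrivial A → KernelsAreCohomological H ∧
      InjectiveOnOddCohomologyIsInjective H ∧ MotivesWithoutOddCohomology H) := by
  have h1 : List.TFAE [InjectiveOnAllAlgTrivial A, HomTrivialActsAsZero H,
      ZeroOnOddCohomologyActsAsZero H] := mot_tfae hA.isKernel hA.zeroKernel hP
  refine ⟨h1, fun h => ⟨kernels hA.isKernel h, injective_of (kernels hA.isKernel h), ?_⟩⟩
  exact motives_of ((h1.out 0 2).1 h)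

end Pool.Agent.Results.MP_386e47_ag.CohomologyControlsCycles
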