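import Pool.Agent.K4H39.AJ.Corr
import Pool.Agent.K4H39.AJ.DimH

/-!
# The Abel-Jacobi map over number fields and homologically trivial correspondences

Let `k` be the field of rational numbers or any number field in the complex numbers, `C` the Chow
groups with rational coefficients of the smooth projective geometrically irreducible varieties over
`k` (in the form of their formal properties), `H` the singular cohomology with rational coefficients,
and `aj : CH^i(X)^0 → H^(2i-1)(X, ℂ) / (F^i + H^(2i-1)(X, ℚ))` Griffiths's Abel-Jacobi map up to
torsion. Beilinson and Bloch conjecture that it is injective.

**Theorem.**
1. The following are equivalent: homologically trivial correspondences act as zero on homologically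
   trivial cycles; `z · w = 0` if `z` and `w` are homologically trivial; the same for `z × w`; the
   kernel of the functor from Chow motives to homological motives is an ideal with square zero.
2. The conjecture of Beilinson and Bloch implies the statements in 1, and these imply that each Chow
   motive with zero cohomology is zero.
3. With the known properties of curves (`CurveProperties`) the following are equivalent:
   * the Abel-Jacobi map is injective up to torsion on the algebraically trivial cycles on all
     varieties;
   * homologically trivial correspondences act as zero on algebraically trivial cycles: the groups of
     algebraically trivial cycles only depend on the **homological** motives of varieties;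
   * `z · w = 0` if `z` is algebraically trivial and `w` homologically trivial;
   * `z × w = 0` if `z` is algebraically trivial and `w` homologically trivial.
4. With these properties the Abel-Jacobi map is injective up to torsion on the zero-cycles of degree
   zero on all varieties if and only if homologically trivial classes in `CH^(dim Y)(X × Y)` act as
   zero on zero-cycles of degree zero.

No standard conjecture and no finite-dimensionality is assumed. The main part of the proof of 3 and 4
is the description of the kernel of the Abel-Jacobi map on algebraically trivial cycles: it consists
of the classes `Γ_* c`, `c` a zero-cycle of degree zero on a curve and `Γ` homologically trivial.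
-/

set_option autoImplicit false

open CategoryTheory AlgebraicGeometry

universe u v w

namespace Pool.Agent.Results.MP_e28333_ag.Correspondences

open Pool.Agent.H914 Pool.Agent.H914.VarClass Pool.Agent.H914.VarClass.Obj Pool.Agent.W492.BB
  Pool.Agent.W550.Corr Pool.Agent.TH133 Pool.Agent.K4H39.AJ

/-- **The Abel-Jacobi map and homologically trivial correspondences.** -/
theorem result {k : Type u} [Field k] {𝒱 : VarClass k} (C : TheoryData.{u, v, 0} 𝒱 ℚ)
    [IsChowProj C] (H : WeilTheoryData.{u, v, 0} C ℚ) [IsWeilProj H]
    (A : HodgeAJ H) (hA : A.IsAJ) :
    -- homologically trivial cycles
    List.TFAE [ActAsZero H (homTriv H), InnerZero H (homTriv H), OuterZero H (homTriv H),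
      SquareZero H] ∧
    -- the whole conjecture
    (A.InjectiveOnClass (homTriv H) → SquareZero H) ∧ (SquareZero H → NoPhantoms H) ∧
    -- with the known properties of curves: algebraically trivial cycles, and zero-cycles
    (CurveProperties H →
      List.TFAE [A.InjectiveOnClass (algTriv H), ActAsZero H (algTriv H),
        InnerZero H (algTriv H), OuterZero H (algTriv H)] ∧
      (A.InjectiveOnZeroCycles ↔ ActAsZeroOnZeroCycles H)) := by
  have h1 : List.TFAE [ActAsZero H (homTriv H), InnerZero H (homTriv H),
    OuterZero H (homTriv H), SquareZero H] := hom_tfae
  refine ⟨h1, fun h => ?_, noPhantoms,
    fun hP => ⟨alg_tfae hA.isKernel hP, zero_iff hA.isKernel hP⟩⟩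
  exact (h1.out 0 3).1 (inj_hom hA.isKernel h)

end Pool.Agent.Results.MP_e28333_ag.Correspondences
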