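import Pool.Agent.K4H38.ZOG.Crit
import Pool.Agent.K4H38.SYG.Final

/-!
# A zero-one law for the Lefschetz standard conjecture, for simple Frobenius eigenvalues

Let `X` be a smooth projective variety of dimension `n` over an algebraically closed field, `D` a
divisor on `X`, with class `ξ`, and `i ≤ n`. Let `X₀` be `X` itself, if `X` is a variety over the
algebraic closure of a finite field, or a good reduction of `X` over such a field; let `f` be the
Frobenius endomorphism of a model of `X₀`. Let `S` and `S₀` be classes of Weil cohomology theories
for which the traces of all cycles of codimension `n` on `X × X` and on `X₀ × X₀`, on the cohomology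
groups of degree `i`, are rational numbers which are the same for all theories of the class
(`RationalTraces`). This is proved for one theory with rational coefficients, for theories in which
one cycle is the projector onto the group of degree `i`, and for theories which satisfy the Riemann
hypothesis for `f` (by the theorem of Deligne, which is not proved here, the `ℓ`-adic theories for
all primes `ℓ` are of this kind). Let the characteristic polynomial of `f^*` on `H^i(X₀)` be
`P₀ P₁`, where the roots of `P₁` are simple, and remain so up to roots of unity; every cycle on
`X₀ × X₀` is defined over a finite field, so that it commutes with a power of `f^*`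
(`FrobeniusLike`). We consider all theories in `S` which have a comparison with a theory in `S₀`.

* There are polynomials with `g h = P₁` and ONE cycle `z` of codimension `i` on `X × X` with
  rational coefficients such that, for all theories, `z ∘ ξ ^ (n - i)` is the identity on the
  kernel of `g(f^*)` on `H^i(X)`, of dimension `deg g`, while ALL cycles of codimension `i` on
  `X × X` act as zero on the image under `ξ ^ (n - i)` of the kernel of `h(f^*)`, of dimension
  `deg h`. If `P₁` is irreducible then `g` or `h` is constant.
* ONE cycle induces the inverse of `ξ ^ (n - i) : H^i(X) → H^(2n - i)(X)` for all theories in `S` if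
  and only if some combination of cycles, for one theory, is injective on the kernel of `P₀(f^*)`,
  and every irreducible factor of `P₁` is hit by some cycle in some theory (which may depend on the
  factor).
* The minimal polynomial `π` of a simple eigenvalue which is separated from the other ones by some
  absolute value (for example the unit root, if exactly one eigenvalue is a `p`-adic unit) obeys the
  zero-one law: if some cycle is not zero on the image under `ξ ^ (n - i)` of the kernel of
  `π(f^*)`, for some theory, then one cycle inverts `ξ ^ (n - i)` there, for all theories.
-/

open Polynomial Pool.Agent.H914 Pool.Agent.Y106.One Pool.Agent.K4H24.Adm Pool.Agent.K4H38.SYG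
  Pool.Agent.K4H38.ZOG

universe u₁ v₁ u v

namespace Pool.Agent.K4H39.Retired.FrobeniusZeroOne

/-- **The zero-one law for simple Frobenius factors.** -/
theorem result {k : Type u} [Field k] {𝒱 : VarClass k} (ops : CycleOps 𝒱) (X : 𝒱.Obj)
    {k₀ : Type u₁} [Field k₀] {𝒱₀ : VarClass k₀} (ops₀ : CycleOps 𝒱₀) (R : Reduction X 𝒱₀)
    (D : X.Cycles) (hD : X.IsCyc 1 D) (i : ℕ) (hi : i ≤ X.dim) :
    (∀ (S : WeilCohomology.{u, v} ops → Prop) (S₀ : WeilCohomology.{u₁, v₁} ops₀ → Prop),
      RationalTraces S X i → RationalTraces S₀ R.X₀ i →
        ZeroOne.{u₁, v₁, u, v} S S₀ R D i) ∧
    ThreeCases.{u₁, v₁, u, v} ops X i ∧ RiemannCase.{u₁, v₁} ops₀ R.X₀ i :=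
  ⟨fun S S₀ hS hS₀ => Pool.Agent.K4H38.ZOG.main X D hD i hi hS R hS₀, threeCases ops X i,
    riemannCase ops₀ R.X₀ i⟩

end Pool.Agent.K4H39.Retired.FrobeniusZeroOne
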