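import Pool.Agent.K4H39.FG.Semi

/-!
# Numerical and homological equivalence over finitely generated fields: reduction to finite fields and
number fields

Let `k` be an algebraically closed field, for instance an algebraic closure of the field with `p`
elements or of `ℚ`, and `k'` an algebraically closed extension of `k`, for instance an algebraic
closure of a finitely generated field. Let `W` and `W'` be Weil cohomology theories on classes of
smooth proper varieties over `k` and `k'`, for instance the `ℓ`-adic cohomology for the same prime
`ℓ`, where `ℓ` is any prime different from the characteristic.

**Theorem.**
1. Let `X` be a variety over `k'` and `z` a cycle of codimension `j` on `X`. They are defined over the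
   field of functions of a variety `U` over `k`, of dimension `s`. Let `P` be a smooth projective
   variety of dimension `dim X + s` over `k` with an alteration to a compactification of the total
   space of the smooth projective family over `U` given by `X` (`IsModel`). If homological and
   numerical equivalence coincide for the cycles of the **one** codimension `j + s` on the **one**
   variety `P` over `k`, then `z` is homologically equivalent to zero if it is numerically equivalent
   to zero. (The dimension of the cycles is the same for `X` and `P`.)
2. So the conjecture D for all varieties over `k` implies the conjecture D for all varieties over
   `k'`: the question for all finitely generated fields is equivalent to the question for finite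
   fields and number fields.
3. The conjecture D for all varieties over `k` is equivalent to each of the following:
   * homological and numerical equivalence coincide for the cycles of codimension `dim Y / 2` on the
     members `Y` of any class `R` of varieties of even dimension which `Contains` the motives of all
     varieties, for instance on the blow-ups of projective spaces of even dimension along one smooth
     subvariety; so the question is about **middle-dimensional cycles on rational varieties over
     finite fields and number fields**;
   * for all varieties `P` the ring of the algebraic correspondences of degree zero of `P`, modulo
     homological equivalence, has no nonzero nilpotent ideals.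

The properties in `IsModel` are those of the actual situation: the alteration `φ` exists by de Jong;
`sp` is the specialisation isomorphism in cohomology; that the monodromy representation is semisimple,
and its invariants are the image of the cohomology of `P`, are theorems of Deligne. So this holds for
all `X` and `z`. No standard conjecture is assumed. For divisors, and for the Tate conjecture for
divisors, such reductions to finite fields are known (Ambrosi, Kahn, Morrow); the first part gives
one for conjecture D in each dimension of cycles.

The proof of 1. Let `F` be a closed fibre of the family, `i` its inclusion, and extend `z` to the
family. The cycle `φ^* (i_* z_F)` on `P` is numerically trivial, since its intersection numbers are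
intersection numbers on `X` with restrictions of cycles on `P`. So its class is zero by D for `P`, that
is, the class of `z_F` in `H(F)` is orthogonal to the image of `H(P)`, the space of the invariants of
the monodromy group. As it is an invariant itself and the representation is semisimple, it is
orthogonal to `H(F)`, and zero.
-/

open CategoryTheory AlgebraicGeometry

universe u v u' v' w

namespace Pool.Agent.K4H39.Retired.ReductionToPrimeFields

open Pool.Agent.H914 Pool.Agent.H447 Pool.Agent.K4H39.FG

/-- **Reduction of the conjecture D from `k'` to `k`, and to middle-dimensional cycles on a class of
varieties such as the blow-ups of projective spaces.** -/
theorem result {k : Type u} [Field k] {𝒱 : VarClass k} {ops : CycleOps 𝒱}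
    {k' : Type u'} [Field k'] {𝒱' : VarClass k'} {ops' : CycleOps 𝒱'}
    (W : WeilCohomology.{u, v} ops) (W' : WeilCohomology.{u', v'} ops') :
    -- one cycle on `X` and one codimension on the total space `P`
    (∀ (X : 𝒱'.Obj) (j s : ℕ) (z : X.Cycles) (M : Spread 𝒱 X), X.IsCyc j z →
      Spread.IsModel.{u, v, u', v', w} M W W' j z s → HomEqNumIn W M.P (j + s) →
        HomEqNumFor W' X j z) ∧
    -- all varieties
    Reduces.{u, v, u', v', w} W W' ∧
    -- equivalent forms over `k`
    (HasClasses W → ∀ R : Set 𝒱.Obj, Contains W R →
      List.TFAE [∀ P : 𝒱.Obj, HomEqNum W P, ∀ Y ∈ R, HomEqNumIn W Y (Y.dim / 2),
        ∀ P : 𝒱.Obj, NoNilpotentIdeals W P]) := by
  refine ⟨fun X j s z M hz hM hD => homEqNumFor_of_model hM hz hD, reduces,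
    fun hcl R hR => ?_⟩
  tfae_have 1 ↔ 2 := (homEqNum_iff_middle hR).symm
  tfae_have 1 ↔ 3 := homEqNum_iff_semiprime hcl
  tfae_finish

end Pool.Agent.K4H39.Retired.ReductionToPrimeFields
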